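import Mathlib

set_option linter.unusedSectionVars false
set_option linter.unusedVariables false

universe u

namespace Pool.Agent.U376.KPBox

open MeasureTheory Set Filter Topology TopologicalSpace
open scoped ENNReal NNReal

/-- An mm-space: a complete separable metric space with a Borel probability measure. -/
structure MMSpace : Type 1 where
  carrier : Type
  [metric : MetricSpace carrier]
  [complete : CompleteSpace carrier]
  [separable : SeparableSpace carrier]
  [meas : MeasurableSpace carrier]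
  [borel : BorelSpace carrier]
  μ : Measure carrier
  [prob : IsProbabilityMeasure μ]

attribute [instance] MMSpace.metric MMSpace.complete MMSpace.separable MMSpace.meas MMSpace.borel
  MMSpace.prob

instance (X : MMSpace) : SecondCountableTopology X.carrier :=
  UniformSpace.secondCountable_of_separable X.carrier

/-- `X` and `Y` are identified when some isometry `f : supp μ_X → supp μ_Y` pushes `μ_X` forward
to `μ_Y` (both measures regarded as measures on their supports). -/
def Iso (X Y : MMSpace) : Prop :=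
  ∃ f : X.μ.support ≃ᵢ Y.μ.support,
    Measure.map f (X.μ.comap Subtype.val) = Y.μ.comap Subtype.val

lemma Iso.refl (X : MMSpace) : Iso X X := ⟨IsometryEquiv.refl _, by
  have : (⇑(IsometryEquiv.refl X.μ.support)) = id := rfl
  rw [this, Measure.map_id]⟩

lemma Iso.symm {X Y : MMSpace} (h : Iso X Y) : Iso Y X := by
  obtain ⟨f, hf⟩ := h
  refine ⟨f.symm, ?_⟩
  rw [← hf, Measure.map_map f.symm.continuous.measurable f.continuous.measurable]
  have : (⇑f.symm ∘ ⇑f) = id := by ext x; simp
  rw [this, Measure.map_id]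

lemma Iso.trans {X Y Z : MMSpace} (h : Iso X Y) (h' : Iso Y Z) : Iso X Z := by
  obtain ⟨f, hf⟩ := h
  obtain ⟨g, hg⟩ := h'
  refine ⟨f.trans g, ?_⟩
  rw [← hg, ← hf, Measure.map_map g.continuous.measurable f.continuous.measurable]
  rfl

instance mmSetoid : Setoid MMSpace := ⟨Iso, Iso.refl, Iso.symm, Iso.trans⟩

/-- The set `𝒳` of isomorphism classes of mm-spaces. -/
def MM : Type 1 := Quotient mmSetoid

/-- the interval `[0,1)` -/
abbrev I01 : Type := Set.Ico (0 : ℝ) 1

/-- Lebesgue measure on `[0,1)` -/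
noncomputable def leb : Measure I01 := (volume : Measure ℝ).comap Subtype.val

/-- `φ` is a parameter of `X`. -/
def IsParam (X : MMSpace) (φ : I01 → X.carrier) : Prop :=
  Measurable φ ∧ Measure.map φ leb = X.μ

/-- The condition on `ε` in the definition of the box distance. -/
def BoxWithin (X Y : MMSpace) (ε : ℝ≥0) : Prop :=
  ∃ (φ : I01 → X.carrier) (ψ : I01 → Y.carrier) (I₀ : Set I01),
    IsParam X φ ∧ IsParam Y ψ ∧ MeasurableSet I₀ ∧ 1 - (ε : ℝ≥0∞) ≤ leb I₀ ∧
      ∀ s ∈ I₀, ∀ t ∈ I₀, |dist (φ s) (φ t) - dist (ψ s) (ψ t)| ≤ ε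

/-- The box distance of two mm-spaces: the infimum of all `ε ≥ 0` as in `BoxWithin`. -/
noncomputable def box (X Y : MMSpace) : ℝ≥0∞ := ⨅ (ε : ℝ≥0) (_ : BoxWithin X Y ε), (ε : ℝ≥0∞)

lemma leb_apply (s : Set I01) (hs : MeasurableSet s) : leb s = volume (Subtype.val '' s) := by
  unfold leb
  exact Measure.comap_apply Subtype.val Subtype.val_injective
    (fun s hs => (MeasurableEmbedding.subtype_coe measurableSet_Ico).measurableSet_image.2 hs) _ hs

instance : IsProbabilityMeasure leb := by
  constructor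
  rw [leb_apply _ MeasurableSet.univ, image_univ, Subtype.range_coe, Real.volume_Ico]
  simp

lemma BoxWithin.symm {X Y : MMSpace} {ε : ℝ≥0} (h : BoxWithin X Y ε) : BoxWithin Y X ε := by
  obtain ⟨φ, ψ, I₀, h1, h2, h3, h4, h5⟩ := h
  refine ⟨ψ, φ, I₀, h2, h1, h3, h4, fun s hs t ht => ?_⟩
  rw [abs_sub_comm]; exact h5 s hs t ht

/-- transport of a parameter along an isomorphism -/
lemma exists_param {X X' : MMSpace} (h : Iso X X') (φ : I01 → X.carrier) (hφ : IsParam X φ) :
    ∃ (φ' : I01 → X'.carrier) (J : Set I01), IsParam X' φ' ∧ MeasurableSet J ∧ leb Jᶜ = 0 ∧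
      ∀ s ∈ J, ∀ t ∈ J, dist (φ' s) (φ' t) = dist (φ s) (φ t) := by
  classical
  obtain ⟨f, hf⟩ := h
  have hne : Nonempty X'.carrier := X'.μ.nonempty_of_neZero
  obtain ⟨x0⟩ := hne
  set J : Set I01 := φ ⁻¹' X.μ.support with hJ
  have hsm : MeasurableSet X.μ.support := Measure.isClosed_support.measurableSet
  have hsm' : MeasurableSet X'.μ.support := Measure.isClosed_support.measurableSet
  have hJm : MeasurableSet J := hφ.1 hsm
  let φ' : I01 → X'.carrier := fun s => if hs : φ s ∈ X.μ.support then (f ⟨φ s, hs⟩ : X'.carrier)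
    else x0
  have hφ'J : ∀ s (hs : s ∈ J), φ' s = (f ⟨φ s, hs⟩ : X'.carrier) := by
    intro s hs
    exact dif_pos hs
  have hJc : leb Jᶜ = 0 := by
    have h1 : X.μ X.μ.supportᶜ = 0 := Measure.measure_compl_support
    have h2 : Measure.map φ leb X.μ.supportᶜ = 0 := by rw [hφ.2]; exact h1
    rw [Measure.map_apply hφ.1 hsm.compl] at h2
    exact h2
  have hmeas : Measurable φ' := by
    have h1 : Measurable (fun x : X.carrier => if hs : x ∈ X.μ.support then
        (f ⟨x, hs⟩ : X'.carrier) else x0) := by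
      apply Measurable.dite (s := X.μ.support)
        (f := fun x : X.μ.support => (f x : X'.carrier))
        (g := fun _ => x0) ?_ measurable_const hsm
      exact measurable_subtype_coe.comp f.continuous.measurable
    exact h1.comp hφ.1
  refine ⟨φ', J, ⟨hmeas, ?_⟩, hJm, hJc, ?_⟩
  · ext B hB
    rw [Measure.map_apply hmeas hB]
    have e1 : leb (φ' ⁻¹' B) = leb (φ' ⁻¹' B ∩ J) := by
      apply le_antisymm
      · calc leb (φ' ⁻¹' B) ≤ leb ((φ' ⁻¹' B ∩ J) ∪ Jᶜ) := by
              apply measure_mono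
              intro s hs
              by_cases h : s ∈ J
              · exact Or.inl ⟨hs, h⟩
              · exact Or.inr h
          _ ≤ leb (φ' ⁻¹' B ∩ J) + leb Jᶜ := measure_union_le _ _
          _ = _ := by rw [hJc, add_zero]
      · exact measure_mono inter_subset_left
    have e2 : φ' ⁻¹' B ∩ J = φ ⁻¹' (Subtype.val '' (f ⁻¹' (Subtype.val ⁻¹' B))) := by
      ext s
      simp only [mem_inter_iff, mem_preimage, mem_image, Subtype.exists, exists_and_right,
        exists_eq_right]
      constructor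
      · rintro ⟨h1, h2⟩
        rw [hφ'J s h2] at h1
        exact ⟨h2, h1⟩
      · rintro ⟨h2, h1⟩
        refine ⟨?_, h2⟩
        rw [hφ'J s h2]; exact h1
    have hm1 : MeasurableSet (f ⁻¹' (Subtype.val ⁻¹' B) : Set X.μ.support) :=
      f.continuous.measurable (measurable_subtype_coe hB)
    have hm2 : MeasurableSet (Subtype.val '' (f ⁻¹' (Subtype.val ⁻¹' B)) : Set X.carrier) :=
      (MeasurableEmbedding.subtype_coe hsm).measurableSet_image.2 hm1
    rw [e1, e2, ← Measure.map_apply hφ.1 hm2, hφ.2]
    rw [← Measure.comap_apply Subtype.val Subtype.val_injective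
      (fun s hs => (MeasurableEmbedding.subtype_coe hsm).measurableSet_image.2 hs) _ hm1]
    rw [← Measure.map_apply f.continuous.measurable (measurable_subtype_coe hB), hf]
    rw [Measure.comap_apply Subtype.val Subtype.val_injective
      (fun s hs => (MeasurableEmbedding.subtype_coe hsm').measurableSet_image.2 hs) _
      (measurable_subtype_coe hB)]
    rw [Subtype.image_preimage_coe]
    apply le_antisymm (measure_mono inter_subset_right)
    calc X'.μ B ≤ X'.μ ((X'.μ.support ∩ B) ∪ X'.μ.supportᶜ) := by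
            apply measure_mono
            intro x hx
            by_cases h : x ∈ X'.μ.support
            · exact Or.inl ⟨h, hx⟩
            · exact Or.inr h
      _ ≤ _ := measure_union_le _ _
      _ = _ := by rw [Measure.measure_compl_support, add_zero]
  · intro s hs t ht
    rw [hφ'J s hs, hφ'J t ht]
    exact f.isometry.dist_eq _ _

lemma BoxWithin.congr_left {X X' Y : MMSpace} {ε : ℝ≥0} (hX : Iso X X') (h : BoxWithin X Y ε) :
    BoxWithin X' Y ε := by
  obtain ⟨φ, ψ, I₀, h1, h2, h3, h4, h5⟩ := h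
  obtain ⟨φ', J, hφ', hJ, hJc, hd⟩ := exists_param hX φ h1
  refine ⟨φ', ψ, I₀ ∩ J, hφ', h2, h3.inter hJ, ?_, ?_⟩
  · refine h4.trans ?_
    calc leb I₀ ≤ leb ((I₀ ∩ J) ∪ Jᶜ) := by
            apply measure_mono
            intro x hx
            by_cases h : x ∈ J
            · exact Or.inl ⟨hx, h⟩
            · exact Or.inr h
      _ ≤ _ := measure_union_le _ _
      _ = _ := by rw [hJc, add_zero]
  · rintro s ⟨hs, hsJ⟩ t ⟨ht, htJ⟩
    rw [hd s hsJ t htJ]
    exact h5 s hs t ht

lemma BoxWithin.congr {X X' Y Y' : MMSpace} {ε : ℝ≥0} (hX : Iso X X') (hY : Iso Y Y')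
    (h : BoxWithin X Y ε) : BoxWithin X' Y' ε :=
  ((h.congr_left hX).symm.congr_left hY).symm

lemma box_congr {X X' Y Y' : MMSpace} (hX : Iso X X') (hY : Iso Y Y') : box X Y = box X' Y' := by
  unfold box
  have : ∀ ε, BoxWithin X Y ε ↔ BoxWithin X' Y' ε := fun ε =>
    ⟨fun h => h.congr hX hY, fun h => h.congr hX.symm hY.symm⟩
  simp only [this]

/-- The box distance on `𝒳`. -/
noncomputable def boxDist : MM → MM → ℝ≥0∞ :=
  Quotient.lift₂ box (fun _ _ _ _ hX hY => box_congr hX hY)

lemma boxDist_mk (X Y : MMSpace) : boxDist (Quotient.mk _ X) (Quotient.mk _ Y) = box X Y := rfl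

lemma box_lt_iff {X Y : MMSpace} {r : ℝ≥0∞} : box X Y < r ↔ ∃ ε : ℝ≥0, BoxWithin X Y ε ∧ (ε : ℝ≥0∞) < r := by
  unfold box
  simp only [iInf_lt_iff, exists_prop]

/-- `A ⊆ 𝒳` is `□`-closed: every point outside `A` has a `□`-ball missing `A`. -/
def IsBoxClosed (A : Set MM) : Prop :=
  ∀ x ∉ A, ∃ ε : ℝ≥0∞, 0 < ε ∧ ∀ y, boxDist x y < ε → y ∉ A

/-- The set `ℱ(𝒳, □)` of all `□`-closed subsets of `𝒳` (the empty set included). -/
def ClosedSets : Type 1 := {A : Set MM // IsBoxClosed A}

/-- The lower limit: the points each neighbourhood (equivalently each `□`-ball) of which meets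
`A i` for all sufficiently large `i`. -/
def Li {ι : Type*} [Preorder ι] (A : ι → ClosedSets) : Set MM :=
  {x | ∀ ε : ℝ≥0∞, 0 < ε → ∀ᶠ i in atTop, ∃ y ∈ (A i).1, boxDist x y < ε}

/-- The upper limit: the points each neighbourhood (equivalently each `□`-ball) of which meets
`A i` for cofinally many `i`. -/
def Ls {ι : Type*} [Preorder ι] (A : ι → ClosedSets) : Set MM :=
  {x | ∀ ε : ℝ≥0∞, 0 < ε → ∃ᶠ i in atTop, ∃ y ∈ (A i).1, boxDist x y < ε}

/-- Kuratowski-Painlevé convergence of the net `A` to `B`. -/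
def KPConv {ι : Type*} [Preorder ι] (A : ι → ClosedSets) (B : ClosedSets) : Prop :=
  Ls A ⊆ B.1 ∧ B.1 ⊆ Li A

/-- `t` is a topology on `ℱ(𝒳, □)` in which every Kuratowski-Painlevé convergent net (indexed by a
directed set in the universe `u`) converges to its Kuratowski-Painlevé limit. -/
def Admissible (t : TopologicalSpace ClosedSets) : Prop :=
  ∀ (ι : Type u) [Preorder ι] [IsDirectedOrder ι] [Nonempty ι] (A : ι → ClosedSets)
    (B : ClosedSets), KPConv A B → Tendsto A atTop (@nhds _ t B)

/-- The topologization `τK` of Kuratowski-Painlevé convergence: the finest topology on `ℱ(𝒳, □)` in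
which every Kuratowski-Painlevé convergent net converges to its limit. (In Mathlib's order on
topologies the smaller ones are the finer ones.) -/
@[reducible] def tauK : TopologicalSpace ClosedSets := sInf {t | Admissible.{u} t}

lemma admissible_tauK : Admissible.{u} tauK.{u} := by
  intro ι _ _ _ A B h
  unfold tauK
  rw [nhds_sInf, tendsto_iInf]
  intro t
  rw [tendsto_iInf]
  intro ht
  exact ht ι A B h

/-- `τK` is the finest admissible topology. -/
lemma isLeast_tauK : IsLeast {t | Admissible.{u} t} tauK.{u} :=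
  ⟨admissible_tauK, fun _ ht => sInf_le ht⟩

end Pool.Agent.U376.KPBox
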