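import Pool.Agent.U376.KPBox.Main

set_option linter.unusedSectionVars false
set_option linter.unusedVariables false

universe u

namespace Pool.Agent.U376.KPBox

open MeasureTheory Set Filter Topology TopologicalSpace
open scoped ENNReal NNReal

/-- `p_n = 1 / (n + 2)` -/
noncomputable def pn (n : ℕ) : ℝ := 1 / ((n : ℝ) + 2)

lemma pn_pos (n : ℕ) : 0 < pn n := by unfold pn; positivity

lemma pn_le (n : ℕ) : pn n ≤ 1 / 2 := by
  unfold pn
  apply one_div_le_one_div_of_le (by norm_num)
  have : (0 : ℝ) ≤ n := Nat.cast_nonneg n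
  linarith

lemma pn_anti {m n : ℕ} (h : m ≤ n) : pn n ≤ pn m := by
  unfold pn
  apply one_div_le_one_div_of_le (by positivity)
  have : (m : ℝ) ≤ n := by exact_mod_cast h
  linarith

lemma tendsto_pn : Tendsto pn atTop (𝓝 0) := by
  unfold pn
  have := tendsto_one_div_add_atTop_nhds_zero_nat (𝕜 := ℝ)
  refine squeeze_zero (fun n => by positivity) (fun n => ?_) this
  apply one_div_le_one_div_of_le (by positivity)
  linarith

/-- The classes of the spaces whose distances are at least `k` with probability at least `p_n / 2`,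
and larger than `p_n` with probability at most `2 p_n`. -/
def AA (n k : ℕ) : Set MM :=
  {x | ∃ X : MMSpace, (Quotient.mk _ X : MM) = x ∧ ENNReal.ofReal (pn n / 2) ≤ dd X (Ici (k : ℝ)) ∧
    dd X (Ioi (pn n)) ≤ 2 * ENNReal.ofReal (pn n)}

lemma ENNReal_half {a b : ℝ≥0∞} (h : a < b) (hb : b ≠ ⊤) : 0 < (b - a) / 2 ∧ a + 2 * ((b - a) / 2) = b := by
  have h1 : 0 < b - a := tsub_pos_of_lt h
  refine ⟨ENNReal.half_pos h1.ne', ?_⟩
  rw [ENNReal.mul_div_cancel (by norm_num) (by norm_num)]
  exact add_tsub_cancel_of_le h.le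

lemma dd_le_one (X : MMSpace) (P : Set ℝ) : dd X P ≤ 1 := prob_le_one

lemma closed_AA (n k : ℕ) : IsBoxClosed (AA n k) := by
  intro x hx
  induction x using Quotient.ind with
  | _ Z =>
    have hx' : ¬ (ENNReal.ofReal (pn n / 2) ≤ dd Z (Ici (k : ℝ)) ∧
        dd Z (Ioi (pn n)) ≤ 2 * ENNReal.ofReal (pn n)) := fun h => hx ⟨Z, rfl, h⟩
    rw [not_and_or, not_le, not_le] at hx'
    rcases hx' with h | h
    · obtain ⟨c, hc1, hc2⟩ := exists_between h
      obtain ⟨δ, hδ, hδ2⟩ := dd_Ici_cont Z k hc1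
      obtain ⟨e1, e2⟩ := ENNReal_half hc2 ENNReal.ofReal_ne_top
      refine ⟨min (ENNReal.ofReal δ) ((ENNReal.ofReal (pn n / 2) - c) / 2), lt_min
        (ENNReal.ofReal_pos.2 hδ) e1, ?_⟩
      rintro y hy ⟨X, rfl, h1, h2⟩
      rw [boxDist_mk, box_lt_iff] at hy
      obtain ⟨ε, hε, hε'⟩ := hy
      rw [lt_min_iff] at hε'
      have hεδ : (ε : ℝ) ≤ δ := by
        have := hε'.1
        rw [ENNReal.ofReal, ENNReal.coe_lt_coe, Real.lt_toNNReal_iff_coe_lt] at this
        exact this.le
      have h3 := dd_le hε.symm (P := Ici (k : ℝ)) (Q := Ici ((k : ℝ) - δ)) measurableSet_Ici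
        measurableSet_Ici (by
          intro a ha b hab
          rw [mem_Ici] at ha ⊢
          have := (abs_le.1 hab).2
          linarith)
      have h4 : dd Z (Ici ((k : ℝ) - δ)) + 2 * ε < ENNReal.ofReal (pn n / 2) := by
        rw [← e2]
        apply ENNReal.add_lt_add hδ2
        exact ENNReal.mul_lt_mul_right (by norm_num) (by norm_num) hε'.2
      exact absurd (h1.trans h3) (not_le.2 h4)
    · obtain ⟨c, hc1, hc2⟩ := exists_between h
      obtain ⟨δ, hδ, hδ2⟩ := dd_Ioi_cont Z (pn n) hc2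
      obtain ⟨e1, e2⟩ := ENNReal_half hc1 (hc2.trans_le (dd_le_one _ _) |>.ne_top)
      refine ⟨min (ENNReal.ofReal δ) ((c - 2 * ENNReal.ofReal (pn n)) / 2), lt_min
        (ENNReal.ofReal_pos.2 hδ) e1, ?_⟩
      rintro y hy ⟨X, rfl, h1, h2⟩
      rw [boxDist_mk, box_lt_iff] at hy
      obtain ⟨ε, hε, hε'⟩ := hy
      rw [lt_min_iff] at hε'
      have hεδ : (ε : ℝ) ≤ δ := by
        have := hε'.1
        rw [ENNReal.ofReal, ENNReal.coe_lt_coe, Real.lt_toNNReal_iff_coe_lt] at this
        exact this.le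
      have h3 := dd_le hε (P := Ioi (pn n + δ)) (Q := Ioi (pn n)) measurableSet_Ioi
        measurableSet_Ioi (by
          intro a ha b hab
          rw [mem_Ioi] at ha ⊢
          have := (abs_le.1 hab).2
          linarith)
      have h4 : dd Z (Ioi (pn n + δ)) ≤ c := by
        rw [← e2]
        refine h3.trans (add_le_add h2 ?_)
        gcongr
        exact hε'.2.le
      exact absurd h4 (not_le.2 hδ2)

lemma tw_mem (n k : ℕ) : (Quotient.mk _ (Tw (pn n) k) : MM) ∈ AA n k :=
  ⟨_, rfl, dd_two_ge (pn_pos n).le (pn_le n),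
    dd_two_le (pn_pos n).le ((pn_le n).trans (by norm_num)) (pn_pos n).le⟩

lemma closed_pt : IsBoxClosed {(Quotient.mk _ Pt : MM)} := by
  intro x hx
  induction x using Quotient.ind with
  | _ Z =>
    have h0 : dd Z (Ioi 0) ≠ 0 := by
      intro h
      exact hx (Quotient.sound (iso_pt h))
    obtain ⟨c, hc1, hc2⟩ := exists_between (pos_iff_ne_zero.2 h0)
    obtain ⟨δ, hδ, hδ2⟩ := dd_Ioi_cont Z 0 hc2
    rw [zero_add] at hδ2
    refine ⟨min (ENNReal.ofReal δ) (c / 2), lt_min (ENNReal.ofReal_pos.2 hδ)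
      (ENNReal.half_pos hc1.ne'), ?_⟩
    rintro y hy rfl
    rw [boxDist_mk, box_lt_iff] at hy
    obtain ⟨ε, hε, hε'⟩ := hy
    rw [lt_min_iff] at hε'
    have hεδ : (ε : ℝ) < δ := by
      have := hε'.1
      rwa [ENNReal.ofReal, ENNReal.coe_lt_coe, Real.lt_toNNReal_iff_coe_lt] at this
    have h3 := dd_le hε (P := Ioi δ) (Q := Ioi 0) measurableSet_Ioi
      measurableSet_Ioi (by
        intro a ha b hab
        rw [mem_Ioi] at ha ⊢
        have := (abs_le.1 hab).2
        linarith)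
    rw [dd_pt le_rfl, zero_add] at h3
    have h4 : 2 * (ε : ℝ≥0∞) ≤ c := by
      calc 2 * (ε : ℝ≥0∞) ≤ 2 * (c / 2) := by gcongr; exact hε'.2.le
        _ = c := ENNReal.mul_div_cancel (by norm_num) (by norm_num)
    exact absurd (h3.trans h4) (not_le.2 hδ2)

lemma closed_empty : IsBoxClosed (∅ : Set MM) := by
  intro x _
  exact ⟨1, one_pos, fun y _ h => h⟩

/-- the closed sets -/
def cAA (n k : ℕ) : ClosedSets := ⟨AA n k, closed_AA n k⟩
def cPt : ClosedSets := ⟨_, closed_pt⟩
def cEmpty : ClosedSets := ⟨∅, closed_empty⟩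

lemma eventually_ulift {P : ℕ → Prop} (h : ∀ᶠ n in atTop, P n) :
    ∀ᶠ i : ULift.{u} ℕ in atTop, P i.down := by
  rw [eventually_atTop] at h
  obtain ⟨N, hN⟩ := h
  exact Filter.eventually_of_mem (mem_atTop (⟨N⟩ : ULift.{u} ℕ)) (fun i hi => hN i.down hi)

instance : IsDirectedOrder (ULift.{u} ℕ) := ⟨fun a b => ⟨⟨max a.down b.down⟩,
  (le_max_left a.down b.down : a.down ≤ _), (le_max_right a.down b.down : b.down ≤ _)⟩⟩

lemma conv_empty (n : ℕ) :
    KPConv (fun i : ULift.{u} ℕ => cAA n i.down) cEmpty := by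
  refine ⟨?_, empty_subset _⟩
  intro x hx
  exfalso
  induction x using Quotient.ind with
  | _ Z =>
    have hc : (0 : ℝ≥0∞) < ENNReal.ofReal (pn n / 2) := ENNReal.ofReal_pos.2 (by
      have := pn_pos n; positivity)
    set c := ENNReal.ofReal (pn n / 2) with hcdef
    obtain ⟨K, hK⟩ := dd_far Z (ENNReal.half_pos hc.ne')
    have hε0 : 0 < min 1 (c / 2 / 2) := lt_min one_pos
      (ENNReal.half_pos (ENNReal.half_pos hc.ne').ne')
    refine hx _ hε0 (eventually_ulift (P := fun k => ¬ ∃ y ∈ (cAA n k).1,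
      boxDist (Quotient.mk _ Z) y < min 1 (c / 2 / 2)) ?_)
    obtain ⟨N, hN⟩ := exists_nat_ge (K + 1)
    filter_upwards [eventually_ge_atTop N] with k hk
    rintro ⟨y, ⟨X, rfl, h1, h2⟩, hy⟩
    rw [boxDist_mk, box_lt_iff] at hy
    obtain ⟨ε, hε, hε'⟩ := hy
    rw [lt_min_iff] at hε'
    have hε1 : (ε : ℝ) ≤ 1 := by
      have := hε'.1
      have h' : ε < 1 := by exact_mod_cast this
      exact_mod_cast h'.le
    have hkN : (N : ℝ) ≤ k := by exact_mod_cast hk
    have h3 := dd_le hε.symm (P := Ici (k : ℝ)) (Q := Ici K) measurableSet_Ici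
      measurableSet_Ici (by
        intro a ha b hab
        rw [mem_Ici] at ha ⊢
        have := (abs_le.1 hab).2
        linarith)
    have h4 : dd Z (Ici K) + 2 * ε < c := by
      calc dd Z (Ici K) + 2 * ε < c / 2 + 2 * (c / 2 / 2) := by
            apply ENNReal.add_lt_add hK
            exact ENNReal.mul_lt_mul_right (by norm_num) (by norm_num) hε'.2
        _ = c := by
            rw [ENNReal.mul_div_cancel (by norm_num) (by norm_num), ENNReal.add_halves]
    exact absurd (h1.trans h3) (not_le.2 h4)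

lemma conv_pt (n k : ℕ → ℕ) (hn : ∀ N, N ≤ n N) :
    KPConv (fun i : ULift.{u} ℕ => cAA (n i.down) (k i.down)) cPt := by
  have hlim : Tendsto (fun N => pn (n N)) atTop (𝓝 0) := by
    refine squeeze_zero (fun N => (pn_pos _).le) (fun N => pn_anti (hn N)) tendsto_pn
  have hlim2 : Tendsto (fun N => ENNReal.ofReal (pn (n N))) atTop (𝓝 0) := by
    have := ENNReal.tendsto_ofReal hlim
    rwa [ENNReal.ofReal_zero] at this
  constructor
  · intro x hx
    induction x using Quotient.ind with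
    | _ Z =>
      change (Quotient.mk _ Z : MM) = Quotient.mk _ Pt
      apply Quotient.sound
      apply iso_pt
      by_contra h0
      obtain ⟨c, hc1, hc2⟩ := exists_between (pos_iff_ne_zero.2 h0)
      obtain ⟨δ, hδ, hδ2⟩ := dd_Ioi_cont Z 0 hc2
      rw [zero_add] at hδ2
      have hε0 : 0 < min (ENNReal.ofReal (δ / 2)) (c / 2 / 2) := lt_min
        (ENNReal.ofReal_pos.2 (by linarith)) (ENNReal.half_pos (ENNReal.half_pos hc1.ne').ne')
      refine hx _ hε0 (eventually_ulift (P := fun N => ¬ ∃ y ∈ (cAA (n N) (k N)).1,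
        boxDist (Quotient.mk _ Z) y < min (ENNReal.ofReal (δ / 2)) (c / 2 / 2)) ?_)
      filter_upwards [hlim.eventually (gt_mem_nhds (by linarith : (0 : ℝ) < δ / 2)),
        hlim2.eventually (gt_mem_nhds (ENNReal.half_pos (ENNReal.half_pos hc1.ne').ne'))]
        with N hN1 hN2
      rintro ⟨y, ⟨X, rfl, h1, h2⟩, hy⟩
      rw [boxDist_mk, box_lt_iff] at hy
      obtain ⟨ε, hε, hε'⟩ := hy
      rw [lt_min_iff] at hε'
      have hεδ : (ε : ℝ) < δ / 2 := by
        have := hε'.1
        rwa [ENNReal.ofReal, ENNReal.coe_lt_coe, Real.lt_toNNReal_iff_coe_lt] at this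
      have h3 := dd_le hε (P := Ioi δ) (Q := Ioi (pn (n N))) measurableSet_Ioi
        measurableSet_Ioi (by
          intro a ha b hab
          rw [mem_Ioi] at ha ⊢
          have := (abs_le.1 hab).2
          linarith)
      have h4 : dd Z (Ioi δ) ≤ c := by
        calc dd Z (Ioi δ) ≤ dd X (Ioi (pn (n N))) + 2 * ε := h3
          _ ≤ 2 * (c / 2 / 2) + 2 * (c / 2 / 2) := by
              gcongr
              · refine h2.trans ?_
                gcongr
              · exact hε'.2.le
          _ = c := by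
              rw [ENNReal.mul_div_cancel (by norm_num) (by norm_num), ENNReal.add_halves]
      exact absurd h4 (not_le.2 hδ2)
  · rintro x rfl
    intro ε hε
    apply eventually_ulift (P := fun N => ∃ y ∈ (cAA (n N) (k N)).1,
      boxDist (Quotient.mk _ Pt) y < ε)
    filter_upwards [hlim2.eventually (gt_mem_nhds hε)] with N hN
    refine ⟨_, tw_mem (n N) (k N), ?_⟩
    rw [boxDist_mk, box_lt_iff]
    exact ⟨_, boxWithin_two (pn_pos _).le ((pn_le _).trans (by norm_num)), hN⟩

theorem not_t2 : ¬ @T2Space ClosedSets tauK.{u} := by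
  intro hT2
  letI : TopologicalSpace ClosedSets := tauK.{u}
  haveI : T2Space ClosedSets := hT2
  have hne : cEmpty ≠ cPt := by
    intro h
    have h1 : (∅ : Set MM) = {(Quotient.mk _ Pt : MM)} := congrArg Subtype.val h
    exact (singleton_ne_empty _) h1.symm
  obtain ⟨U, V, hU, hV, hUe, hVp, hUV⟩ := t2_separation hne
  have hex : ∃ N, ∀ n, N ≤ n → ∀ k, cAA n k ∈ V := by
    by_contra hcon
    push Not at hcon
    choose n hn k hk using hcon
    have h1 := admissible_tauK.{u} (ULift.{u} ℕ) _ _ (conv_pt.{u} n k hn)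
    have h2 := h1.eventually (hV.mem_nhds hVp)
    obtain ⟨i, hi⟩ := h2.exists
    exact hk i.down hi
  obtain ⟨N, hN⟩ := hex
  have h1 := admissible_tauK.{u} (ULift.{u} ℕ) _ _ (conv_empty.{u} N)
  obtain ⟨i, hi⟩ := (h1.eventually (hU.mem_nhds hUe)).exists
  exact disjoint_left.1 hUV hi (hN N le_rfl i.down)

theorem not_metrizable : ¬ @MetrizableSpace ClosedSets tauK.{u} := by
  intro h
  letI : TopologicalSpace ClosedSets := tauK.{u}
  haveI : MetrizableSpace ClosedSets := h
  exact not_t2.{u} inferInstance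

end Pool.Agent.U376.KPBox
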