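import Pool.Agent.U376.KPBox.Defs

set_option linter.unusedSectionVars false
set_option linter.unusedVariables false

universe u

namespace Pool.Agent.U376.KPBox

open MeasureTheory Set Filter Topology TopologicalSpace
open scoped ENNReal NNReal

/-- the distribution of the distance of two independent random points -/
noncomputable def dd (X : MMSpace) (P : Set ℝ) : ℝ≥0∞ :=
  (X.μ.prod X.μ) {p | dist p.1 p.2 ∈ P}

lemma dd_mono (X : MMSpace) {P Q : Set ℝ} (h : P ⊆ Q) : dd X P ≤ dd X Q :=
  measure_mono fun _ hp => h hp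

lemma measurableSet_dd (X : MMSpace) {P : Set ℝ} (hP : MeasurableSet P) :
    MeasurableSet {p : X.carrier × X.carrier | dist p.1 p.2 ∈ P} :=
  measurable_dist hP

lemma dd_eq {X : MMSpace} {φ : I01 → X.carrier} (h : IsParam X φ) {P : Set ℝ}
    (hP : MeasurableSet P) :
    dd X P = (leb.prod leb) {p | dist (φ p.1) (φ p.2) ∈ P} := by
  unfold dd
  rw [← h.2, Measure.map_prod_map _ _ h.1 h.1, Measure.map_apply (h.1.prodMap h.1)
    (measurableSet_dd X hP)]
  rfl

/-- comparison of the distance distributions of `□`-close spaces -/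
lemma dd_le {X Y : MMSpace} {ε : ℝ≥0} (h : BoxWithin X Y ε) {P Q : Set ℝ}
    (hP : MeasurableSet P) (hQ : MeasurableSet Q)
    (hPQ : ∀ a ∈ P, ∀ b, |a - b| ≤ ε → b ∈ Q) : dd X P ≤ dd Y Q + 2 * ε := by
  obtain ⟨φ, ψ, I₀, h1, h2, h3, h4, h5⟩ := h
  rw [dd_eq h1 hP, dd_eq h2 hQ]
  have hc : leb I₀ᶜ ≤ ε := by
    rw [prob_compl_eq_one_sub h3]
    rw [tsub_le_iff_left] at h4 ⊢
    rwa [add_comm]
  calc (leb.prod leb) {p | dist (φ p.1) (φ p.2) ∈ P}
      ≤ (leb.prod leb) ({p | dist (ψ p.1) (ψ p.2) ∈ Q} ∪ ((I₀ᶜ ×ˢ univ) ∪ (univ ×ˢ I₀ᶜ))) := by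
        apply measure_mono
        rintro ⟨s, t⟩ hst
        by_cases hs : s ∈ I₀
        · by_cases ht : t ∈ I₀
          · left
            exact hPQ _ hst _ (h5 s hs t ht)
          · right; right; exact ⟨mem_univ _, ht⟩
        · right; left; exact ⟨hs, mem_univ _⟩
    _ ≤ (leb.prod leb) {p | dist (ψ p.1) (ψ p.2) ∈ Q} +
          ((leb.prod leb) (I₀ᶜ ×ˢ univ) + (leb.prod leb) (univ ×ˢ I₀ᶜ)) :=
        (measure_union_le _ _).trans (add_le_add_right (measure_union_le _ _) _)
    _ ≤ _ := by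
        rw [Measure.prod_prod, Measure.prod_prod, measure_univ, one_mul, mul_one, two_mul]
        gcongr

/-- the far distances have small probability -/
lemma dd_far (X : MMSpace) {c : ℝ≥0∞} (hc : 0 < c) : ∃ K : ℝ, dd X (Ici K) < c := by
  have h1 : Tendsto (fun n : ℕ => dd X (Ici (n : ℝ))) atTop
      (𝓝 ((X.μ.prod X.μ) (⋂ n : ℕ, {p | dist p.1 p.2 ∈ Ici (n : ℝ)}))) := by
    apply tendsto_measure_iInter_atTop
    · intro n; exact (measurableSet_dd X measurableSet_Ici).nullMeasurableSet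
    · intro m n hmn p hp
      have : (m : ℝ) ≤ n := by exact_mod_cast hmn
      exact this.trans hp
    · exact ⟨0, measure_ne_top _ _⟩
  have h2 : (⋂ n : ℕ, {p : X.carrier × X.carrier | dist p.1 p.2 ∈ Ici (n : ℝ)}) = ∅ := by
    rw [eq_empty_iff_forall_notMem]
    intro p hp
    rw [mem_iInter] at hp
    obtain ⟨n, hn⟩ := exists_nat_gt (dist p.1 p.2)
    exact absurd (hp n) (by simpa using hn)
  rw [h2, measure_empty] at h1
  obtain ⟨n, hn⟩ := (h1.eventually (gt_mem_nhds hc)).exists
  exact ⟨n, hn⟩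

lemma dd_Ici_cont (X : MMSpace) (R : ℝ) {c : ℝ≥0∞} (hc : dd X (Ici R) < c) :
    ∃ δ : ℝ, 0 < δ ∧ dd X (Ici (R - δ)) < c := by
  have h1 : Tendsto (fun n : ℕ => dd X (Ici (R - 1 / (n + 1)))) atTop
      (𝓝 ((X.μ.prod X.μ) (⋂ n : ℕ, {p | dist p.1 p.2 ∈ Ici (R - 1 / (n + 1))}))) := by
    apply tendsto_measure_iInter_atTop
    · intro n; exact (measurableSet_dd X measurableSet_Ici).nullMeasurableSet
    · intro m n hmn p hp
      have h : (1 : ℝ) / (n + 1) ≤ 1 / (m + 1) := Nat.one_div_le_one_div hmn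
      have hp' : R - 1 / (n + 1) ≤ dist p.1 p.2 := hp
      change R - 1 / (m + 1) ≤ dist p.1 p.2
      linarith
    · exact ⟨0, measure_ne_top _ _⟩
  have h2 : (⋂ n : ℕ, {p : X.carrier × X.carrier | dist p.1 p.2 ∈ Ici (R - 1 / ((n : ℝ) + 1))}) ⊆
      {p | dist p.1 p.2 ∈ Ici R} := by
    intro p hp
    rw [mem_iInter] at hp
    change R ≤ dist p.1 p.2
    by_contra hlt
    push Not at hlt
    obtain ⟨n, hn⟩ := exists_nat_one_div_lt (sub_pos.2 hlt)
    have := hp n
    have h3 : R - 1 / ((n : ℝ) + 1) ≤ dist p.1 p.2 := this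
    linarith
  obtain ⟨n, hn⟩ := (h1.eventually (gt_mem_nhds ((measure_mono h2).trans_lt hc))).exists
  exact ⟨1 / (n + 1), Nat.one_div_pos_of_nat, hn⟩

lemma dd_Ioi_cont (X : MMSpace) (R : ℝ) {c : ℝ≥0∞} (hc : c < dd X (Ioi R)) :
    ∃ δ : ℝ, 0 < δ ∧ c < dd X (Ioi (R + δ)) := by
  have h1 : Tendsto (fun n : ℕ => dd X (Ioi (R + 1 / (n + 1)))) atTop
      (𝓝 ((X.μ.prod X.μ) (⋃ n : ℕ, {p | dist p.1 p.2 ∈ Ioi (R + 1 / (n + 1))}))) := by
    apply tendsto_measure_iUnion_atTop
    intro m n hmn p hp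
    have h : (1 : ℝ) / (n + 1) ≤ 1 / (m + 1) := Nat.one_div_le_one_div hmn
    have hp' : R + 1 / (m + 1) < dist p.1 p.2 := hp
    change R + 1 / (n + 1) < dist p.1 p.2
    linarith
  have h2 : {p : X.carrier × X.carrier | dist p.1 p.2 ∈ Ioi R} ⊆
      (⋃ n : ℕ, {p | dist p.1 p.2 ∈ Ioi (R + 1 / ((n : ℝ) + 1))}) := by
    intro p hp
    have hp' : R < dist p.1 p.2 := hp
    obtain ⟨n, hn⟩ := exists_nat_one_div_lt (sub_pos.2 hp')
    rw [mem_iUnion]
    refine ⟨n, ?_⟩
    change R + 1 / ((n : ℝ) + 1) < dist p.1 p.2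
    linarith
  obtain ⟨n, hn⟩ := (h1.eventually (lt_mem_nhds (hc.trans_le (measure_mono h2)))).exists
  exact ⟨1 / (n + 1), Nat.one_div_pos_of_nat, hn⟩

/-- the set of the parameters below `1 - p` -/
def low (p : ℝ) : Set I01 := {s | s.1 < 1 - p}

lemma measurableSet_low (p : ℝ) : MeasurableSet (low p) :=
  measurable_subtype_coe measurableSet_Iio

lemma leb_low {p : ℝ} (h0 : 0 ≤ p) (h1 : p ≤ 1) : leb (low p) = ENNReal.ofReal (1 - p) := by
  rw [leb_apply _ (measurableSet_low p)]
  have : (Subtype.val '' low p : Set ℝ) = Ico 0 (1 - p) := by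
    ext x
    simp only [low, mem_image, mem_ofPred_eq, Subtype.exists, exists_and_left, exists_prop,
      exists_eq_right_right, mem_Ico]
    constructor
    · rintro ⟨a, b, c⟩; exact ⟨b, a⟩
    · rintro ⟨a, b⟩; exact ⟨b, a, by linarith⟩
  rw [this, Real.volume_Ico]
  simp

/-- the map on `[0,1)` taking the value `R` with probability `p` and `0` otherwise -/
noncomputable def two (p R : ℝ) : I01 → ℝ := fun s => open Classical in if s ∈ low p then 0 else R

lemma measurable_two (p R : ℝ) : Measurable (two p R) := by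
  classical
  exact Measurable.ite (measurableSet_low p) measurable_const measurable_const

/-- The space with two points at distance `|R|`, of masses `1 - p` and `p`. -/
noncomputable def Tw (p R : ℝ) : MMSpace where
  carrier := ℝ
  μ := Measure.map (two p R) leb
  prob := Measure.isProbabilityMeasure_map (measurable_two p R).aemeasurable

/-- The one-point space. -/
noncomputable def Pt : MMSpace where
  carrier := ℝ
  μ := Measure.dirac 0

lemma isParam_two (p R : ℝ) : IsParam (Tw p R) (two p R) := ⟨measurable_two p R, rfl⟩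

lemma isParam_pt : IsParam Pt (fun _ => (0 : ℝ)) := by
  refine ⟨measurable_const, ?_⟩
  change Measure.map (fun _ => (0 : ℝ)) leb = Measure.dirac 0
  rw [Measure.map_const]
  simp

lemma boxWithin_two {p R : ℝ} (h0 : 0 ≤ p) (h1 : p ≤ 1) :
    BoxWithin Pt (Tw p R) p.toNNReal := by
  refine ⟨fun _ => (0 : ℝ), two p R, low p, isParam_pt, isParam_two p R, measurableSet_low p,
    ?_, ?_⟩
  · rw [leb_low h0 h1, tsub_le_iff_right]
    change 1 ≤ ENNReal.ofReal (1 - p) + ENNReal.ofReal p
    rw [← ENNReal.ofReal_add (by linarith) h0]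
    simp
  · intro s hs t ht
    have e1 : two p R s = 0 := by simp only [two]; exact if_pos hs
    have e2 : two p R t = 0 := by simp only [two]; exact if_pos ht
    change |dist (0 : ℝ) (0 : ℝ) - dist (two p R s) (two p R t)| ≤ (p.toNNReal : ℝ)
    rw [e1, e2]
    simp

/-- the far mass of the two-point space -/
lemma dd_two_ge {p R : ℝ} (h0 : 0 ≤ p) (h1 : p ≤ 1 / 2) :
    ENNReal.ofReal (p / 2) ≤ dd (Tw p R) (Ici R) := by
  rw [dd_eq (isParam_two p R) measurableSet_Ici]
  have hsub : (low p ×ˢ (low p)ᶜ : Set (I01 × I01)) ⊆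
      {q | dist (two p R q.1 : (Tw p R).carrier) (two p R q.2) ∈ Ici R} := by
    rintro ⟨s, t⟩ ⟨hs, ht⟩
    have e1 : two p R s = 0 := by simp only [two]; exact if_pos hs
    have e2 : two p R t = R := by simp only [two]; exact if_neg ht
    change R ≤ dist (two p R s) (two p R t)
    rw [e1, e2, Real.dist_eq]
    simpa using le_abs_self R
  refine le_trans ?_ (measure_mono hsub)
  rw [Measure.prod_prod, leb_low h0 (by linarith), prob_compl_eq_one_sub (measurableSet_low p),
    leb_low h0 (by linarith)]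
  have : (1 : ℝ≥0∞) - ENNReal.ofReal (1 - p) = ENNReal.ofReal p := by
    rw [← ENNReal.ofReal_one, ← ENNReal.ofReal_sub _ (by linarith)]
    congr 1; ring
  rw [this, ← ENNReal.ofReal_mul (by linarith)]
  apply ENNReal.ofReal_le_ofReal
  nlinarith

lemma dd_two_le {p R δ : ℝ} (h0 : 0 ≤ p) (h1 : p ≤ 1) (hδ : 0 ≤ δ) :
    dd (Tw p R) (Ioi δ) ≤ 2 * ENNReal.ofReal p := by
  rw [dd_eq (isParam_two p R) measurableSet_Ioi]
  have hsub : {q : I01 × I01 | dist (two p R q.1 : (Tw p R).carrier) (two p R q.2) ∈ Ioi δ} ⊆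
      ((low p)ᶜ ×ˢ univ) ∪ (univ ×ˢ (low p)ᶜ) := by
    rintro ⟨s, t⟩ hst
    by_cases hs : s ∈ low p
    · by_cases ht : t ∈ low p
      · exfalso
        have e1 : two p R s = 0 := by simp only [two]; exact if_pos hs
        have e2 : two p R t = 0 := by simp only [two]; exact if_pos ht
        have h3 : δ < dist (two p R s) (two p R t) := hst
        rw [e1, e2, dist_self] at h3
        linarith
      · right; exact ⟨mem_univ _, ht⟩
    · left; exact ⟨hs, mem_univ _⟩
  have hc : leb (low p)ᶜ = ENNReal.ofReal p := by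
    rw [prob_compl_eq_one_sub (measurableSet_low p), leb_low h0 h1,
      ← ENNReal.ofReal_one, ← ENNReal.ofReal_sub _ (by linarith)]
    congr 1; ring
  refine (measure_mono hsub).trans ((measure_union_le _ _).trans ?_)
  rw [Measure.prod_prod, Measure.prod_prod, measure_univ, one_mul, mul_one, hc, two_mul]

lemma dd_pt {δ : ℝ} (hδ : 0 ≤ δ) : dd Pt (Ioi δ) = 0 := by
  rw [dd_eq isParam_pt measurableSet_Ioi]
  have : {q : I01 × I01 | dist (0 : ℝ) (0 : ℝ) ∈ Ioi δ} = ∅ := by
    rw [eq_empty_iff_forall_notMem]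
    intro q hq
    have h : δ < dist (0 : ℝ) (0 : ℝ) := hq
    rw [dist_self] at h
    linarith
  change (leb.prod leb) {q : I01 × I01 | dist (0 : ℝ) (0 : ℝ) ∈ Ioi δ} = 0
  rw [this, measure_empty]

lemma support_singleton {X : MMSpace} {x : X.carrier} (h : X.μ {x}ᶜ = 0) : X.μ.support = {x} := by
  apply Subset.antisymm
  · exact Measure.support_subset_of_isClosed isClosed_singleton h
  · rintro y rfl
    rw [Measure.mem_support_iff_forall]
    intro U hU
    have h1 : X.μ {y} = 1 := by
      have := prob_compl_eq_zero_iff (μ := X.μ) (measurableSet_singleton y)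
      exact this.1 h
    calc (0 : ℝ≥0∞) < 1 := one_pos
      _ = X.μ {y} := h1.symm
      _ ≤ X.μ U := measure_mono (singleton_subset_iff.2 (mem_of_mem_nhds hU))

lemma iso_of_singletons {X Y : MMSpace} {x : X.carrier} {y : Y.carrier} (hx : X.μ {x}ᶜ = 0)
    (hy : Y.μ {y}ᶜ = 0) : Iso X Y := by
  have h1 := support_singleton hx
  have h2 := support_singleton hy
  have hX : Unique X.μ.support := by rw [h1]; infer_instance
  have hY : Unique Y.μ.support := by rw [h2]; infer_instance
  have huX : (X.μ.comap Subtype.val : Measure X.μ.support) univ = 1 := by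
    rw [Measure.comap_apply Subtype.val Subtype.val_injective (fun s hs =>
      (MeasurableEmbedding.subtype_coe Measure.isClosed_support.measurableSet).measurableSet_image.2
        hs) _ MeasurableSet.univ, image_univ, Subtype.range_coe, h1]
    exact (prob_compl_eq_zero_iff (μ := X.μ) (measurableSet_singleton x)).1 hx
  have huY : (Y.μ.comap Subtype.val : Measure Y.μ.support) univ = 1 := by
    rw [Measure.comap_apply Subtype.val Subtype.val_injective (fun s hs =>
      (MeasurableEmbedding.subtype_coe Measure.isClosed_support.measurableSet).measurableSet_image.2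
        hs) _ MeasurableSet.univ, image_univ, Subtype.range_coe, h2]
    exact (prob_compl_eq_zero_iff (μ := Y.μ) (measurableSet_singleton y)).1 hy
  let f : X.μ.support ≃ᵢ Y.μ.support :=
    { toEquiv := Equiv.ofUnique _ _
      isometry_toFun := by
        intro a b
        rw [Subsingleton.elim a b]; simp }
  refine ⟨f, ?_⟩
  ext B hB
  rw [Measure.map_apply f.continuous.measurable hB]
  rcases Subsingleton.eq_univ_of_nonempty (s := B) |> fun h => B.eq_empty_or_nonempty.imp id (fun hne => h hne) with h | h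
  · rw [h]; simp
  · rw [h, preimage_univ, huX, huY]

/-- a space all whose distances vanish almost surely is the one-point space -/
lemma iso_pt {X : MMSpace} (h : dd X (Ioi 0) = 0) : Iso X Pt := by
  have h1 : ∀ᵐ x ∂X.μ, X.μ (Prod.mk x ⁻¹' {p | dist p.1 p.2 ∈ Ioi 0}) = 0 := by
    have := (Measure.measure_prod_null (measurableSet_dd X measurableSet_Ioi)).1 h
    exact this
  obtain ⟨x, hx⟩ := h1.exists
  apply iso_of_singletons (x := x) (y := (0 : ℝ))
  · have : ({x}ᶜ : Set X.carrier) = Prod.mk x ⁻¹' {p | dist p.1 p.2 ∈ Ioi 0} := by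
      ext y
      simp only [mem_compl_iff, mem_singleton_iff, mem_preimage, mem_ofPred_eq, mem_Ioi, dist_pos]
      exact ⟨fun h => Ne.symm h, fun h => Ne.symm h⟩
    rw [this]; exact hx
  · change (Measure.dirac (0 : ℝ)) {(0 : ℝ)}ᶜ = 0
    simp

end Pool.Agent.U376.KPBox
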